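import Pool.Agent.helper71.DSW.SpecA

set_option autoImplicit false

namespace Pool.Agent.DSW

open Equiv Finset Function Pool.Agent.helper48.PP
open scoped ENNReal Classical

theorem SKW_zero (L : ℕ) (h0 : 0 < L * L) : grid L ⟨0, h0⟩ = ⟨0, h0⟩ := by
  apply Fin.ext
  simp [grid, finProdFinEquiv, Fin.divNat, Fin.modNat]

theorem SKW : SKW_stmt := by
  intro L hL
  have hLL : 2 ≤ L * L := by nlinarith
  have h0 : 0 < L * L := by omega
  have hsk : SkewIndec (grid L) := by
    intro c hc hcL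
    refine ⟨⟨0, h0⟩, ⟨c, hcL⟩, hc, le_refl _, ?_⟩
    rw [SKW_zero L h0]
    have hne : grid L ⟨c, hcL⟩ ≠ ⟨0, h0⟩ := by
      intro h
      have h2 : grid L ⟨c, hcL⟩ = grid L ⟨0, h0⟩ := by rw [h, SKW_zero L h0]
      have h3 := (grid L).injective h2
      have h4 := congrArg Fin.val h3
      simp at h4
      omega
    have h5 : (grid L ⟨c, hcL⟩ : ℕ) ≠ 0 := fun h => hne (Fin.ext h)
    show (0 : ℕ) < (grid L ⟨c, hcL⟩ : ℕ)
    omega
  intro m n hmn
  exact avCount_monotone hsk (by omega) hmn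

end Pool.Agent.DSW
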